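import Pool.Agent.W201.NT.StmT

/-! # `S_EU`: open subsets of Euclidean space -/

set_option autoImplicit false

namespace Pool.Agent.W293.NT.EU

open Pool.Agent.W201.NT

theorem van_homeo (hi : S_HI) {X Y : Type} [TopologicalSpace X] [TopologicalSpace Y] (e : X ≃ₜ Y)
    (n : ℕ) (h : Van X n) : Van Y n := by
  refine hi X Y ⟨e, e.continuous⟩ ⟨e.symm, e.symm.continuous⟩ ?_ n h
  have : (ContinuousMap.comp ⟨e, e.continuous⟩ ⟨e.symm, e.symm.continuous⟩ : C(Y, Y)) =
      ContinuousMap.id Y := by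
    ext y
    simp
  rw [this]

theorem open_homeo (hi : S_HI) {X Y : Type} [TopologicalSpace X] [TopologicalSpace Y] (e : X ≃ₜ Y)
    (m : ℕ) (h : ∀ V : Set Y, IsOpen V → ∀ n : ℕ, m ≤ n → Van ↥V n) :
    ∀ U : Set X, IsOpen U → ∀ n : ℕ, m ≤ n → Van ↥U n := by
  intro U hU n hn
  exact van_homeo hi (e.image U).symm n (h (e '' U) (e.isOpenMap U hU) n hn)

/-- normed spaces of the same dimension are homeomorphic -/
noncomputable def hh (E F : Type) [NormedAddCommGroup E] [NormedSpace ℝ E] [FiniteDimensional ℝ E]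
    [NormedAddCommGroup F] [NormedSpace ℝ F] [FiniteDimensional ℝ F]
    (h : Module.finrank ℝ E = Module.finrank ℝ F) : E ≃ₜ F :=
  (ContinuousLinearEquiv.ofFinrankEq h).toHomeomorph

/-- the line -/
noncomputable def e1 : EuclideanSpace ℝ (Fin 1) ≃ₜ ℝ :=
  hh (EuclideanSpace ℝ (Fin 1)) ℝ (by simp)

/-- splitting off a coordinate -/
noncomputable def es (d : ℕ) : EuclideanSpace ℝ (Fin (d + 1)) ≃ₜ EuclideanSpace ℝ (Fin d) × ℝ :=
  hh (EuclideanSpace ℝ (Fin (d + 1))) (EuclideanSpace ℝ (Fin d) × ℝ) (by simp)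

theorem main : S_HI → S_LN → S_PR → S_EU := by
  intro hi ln pr d hd
  induction d, hd using Nat.le_induction with
  | base => exact open_homeo hi e1 1 ln
  | succ d hd ih => exact open_homeo hi (es d) (d + 1) (pr _ d hd ih)

end Pool.Agent.W293.NT.EU
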