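import Pool.Agent.W201.NT.StmT

/-! # `S_VR`: integral vanishing gives real vanishing -/

set_option autoImplicit false

namespace Pool.Agent.W293.NT.VR

open Finsupp Pool.Agent.W201.NT Pool.Agent.Helper381

variable {X : Type} [TopologicalSpace X]

theorem bdR_single' (R : Type) [CommRing R] (n : ℕ) (σ : Sing X (n + 1)) (r : R) :
    bdR R X n (Finsupp.single σ r) =
      ∑ i : Fin (n + 2), Finsupp.single (sface n i σ) ((-1 : R) ^ (i : ℕ) * r) := by
  rw [bdR, Finsupp.linearCombination_single, Finset.smul_sum]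
  apply Finset.sum_congr rfl
  intro i _
  rw [Finsupp.smul_single, Finsupp.smul_single, smul_eq_mul, smul_eq_mul, mul_one, mul_comm]

/-- naturality in the coefficients -/
theorem bd_nat {R R' : Type} [CommRing R] [CommRing R'] (φ : R →+ R') (n : ℕ)
    (z : Sing X (n + 1) →₀ R) :
    bdR R' X n (Finsupp.mapRange.addMonoidHom φ z) =
      Finsupp.mapRange.addMonoidHom φ (bdR R X n z) := by
  induction z using Finsupp.induction_linear with
  | zero => simp
  | add f g hf hg => rw [map_add, map_add, map_add, map_add, hf, hg]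
  | single σ r =>
    rw [bdR_single', map_sum, Finsupp.mapRange.addMonoidHom_apply, Finsupp.mapRange_single,
      bdR_single']
    apply Finset.sum_congr rfl
    intro i _
    rw [Finsupp.mapRange.addMonoidHom_apply, Finsupp.mapRange_single]
    congr 1
    rcases neg_one_pow_eq_or ℤ (i : ℕ) with h | h
    · have h1 : ((-1 : R) ^ (i : ℕ)) = 1 := by
        have := congrArg (Int.cast : ℤ → R) h
        push_cast at this
        exact this
      have h2 : ((-1 : R') ^ (i : ℕ)) = 1 := by
        have := congrArg (Int.cast : ℤ → R') h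
        push_cast at this
        exact this
      rw [h1, h2, one_mul, one_mul]
    · have h1 : ((-1 : R) ^ (i : ℕ)) = -1 := by
        have := congrArg (Int.cast : ℤ → R) h
        push_cast at this
        exact this
      have h2 : ((-1 : R') ^ (i : ℕ)) = -1 := by
        have := congrArg (Int.cast : ℤ → R') h
        push_cast at this
        exact this
      rw [h1, h2, neg_one_mul, neg_one_mul, map_neg]

theorem cyc_map {R R' : Type} [CommRing R] [CommRing R'] (φ : R →+ R') (n : ℕ)
    (z : Sing X n →₀ R) (hz : z ∈ Cyc R X n) :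
    Finsupp.mapRange.addMonoidHom φ z ∈ Cyc R' X n := by
  cases n with
  | zero => exact Submodule.mem_top
  | succ n =>
    change bdR R' X n _ = 0
    rw [bd_nat]
    have : bdR R X n z = 0 := hz
    rw [this, map_zero]

theorem cyc_inj {R R' : Type} [CommRing R] [CommRing R'] (φ : R →+ R')
    (hφ : Function.Injective φ) (n : ℕ) (z : Sing X n →₀ R)
    (hz : Finsupp.mapRange.addMonoidHom φ z ∈ Cyc R' X n) : z ∈ Cyc R X n := by
  cases n with
  | zero => exact Submodule.mem_top
  | succ n =>
    change bdR R X n z = 0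
    have h1 : bdR R' X n (Finsupp.mapRange.addMonoidHom φ z) = 0 := hz
    rw [bd_nat] at h1
    ext σ
    have h2 := DFunLike.congr_fun h1 σ
    rw [Finsupp.mapRange.addMonoidHom_apply, Finsupp.mapRange_apply] at h2
    apply hφ
    rw [h2]
    simp

theorem bdr_map {R R' : Type} [CommRing R] [CommRing R'] (φ : R →+ R') (n : ℕ)
    (z : Sing X n →₀ R) (hz : z ∈ Bdr R X n) :
    Finsupp.mapRange.addMonoidHom φ z ∈ Bdr R' X n := by
  obtain ⟨b, rfl⟩ := hz
  exact ⟨Finsupp.mapRange.addMonoidHom φ b, bd_nat φ n b⟩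

theorem clear {α : Type} (q : α →₀ ℚ) : ∃ N : ℕ, 0 < N ∧ ∃ c : α →₀ ℤ,
    N • q = Finsupp.mapRange.addMonoidHom (Int.castAddHom ℚ) c := by
  induction q using Finsupp.induction_linear with
  | zero => exact ⟨1, one_pos, 0, by simp⟩
  | add f g hf hg =>
    obtain ⟨N, hN, c, hc⟩ := hf
    obtain ⟨N', hN', c', hc'⟩ := hg
    refine ⟨N * N', Nat.mul_pos hN hN', N' • c + N • c', ?_⟩
    rw [map_add, map_nsmul, map_nsmul, ← hc, ← hc', smul_add, smul_smul, smul_smul,
      mul_comm N' N]
  | single a r =>
    refine ⟨r.den, r.pos, Finsupp.single a r.num, ?_⟩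
    rw [Finsupp.mapRange.addMonoidHom_apply, Finsupp.mapRange_single, Finsupp.smul_single]
    congr 1
    rw [nsmul_eq_mul, Int.coe_castAddHom]
    exact_mod_cast Rat.den_mul_eq_num r

theorem rat_van (n : ℕ) (h : Van X n) (q : Sing X n →₀ ℚ) (hq : q ∈ Cyc ℚ X n) :
    q ∈ Bdr ℚ X n := by
  obtain ⟨N, hN, c, hc⟩ := clear q
  have h1 : c ∈ Cyc ℤ X n := by
    apply cyc_inj (Int.castAddHom ℚ) (fun a b hab => Int.cast_injective (α := ℚ) hab)
    rw [← hc]
    exact Submodule.smul_of_tower_mem _ N hq
  have h2 : N • q ∈ Bdr ℚ X n := by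
    rw [hc]
    exact bdr_map _ n c (h h1)
  have h3 : q = (1 / (N : ℚ)) • (N • q) := by
    rw [← Nat.cast_smul_eq_nsmul ℚ, smul_smul, one_div, inv_mul_cancel₀, one_smul]
    exact_mod_cast hN.ne'
  rw [h3]
  exact Submodule.smul_mem _ _ h2

theorem real_van (n : ℕ) (h : Van X n) (z : Sing X n →₀ ℝ) (hz : z ∈ Cyc ℝ X n) :
    z ∈ Bdr ℝ X n := by
  classical
  let B := Module.Basis.ofVectorSpace ℚ ℝ
  let F := z.support.biUnion fun σ => (B.repr (z σ)).support
  let ψ := fun i => (LinearMap.toSpanSingleton ℚ ℝ (B i)).toAddMonoidHom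
  have h1 : z = ∑ i ∈ F, Finsupp.mapRange.addMonoidHom (ψ i)
      (Finsupp.mapRange.addMonoidHom (B.coord i).toAddMonoidHom z) := by
    ext σ
    rw [Finsupp.finsetSum_apply]
    simp only [Finsupp.mapRange.addMonoidHom_apply, Finsupp.mapRange_apply]
    change z σ = ∑ i ∈ F, (B.repr (z σ) i) • B i
    have h2 := B.linearCombination_repr (z σ)
    rw [Finsupp.linearCombination_apply, Finsupp.sum_of_support_subset (s := F)] at h2
    · exact h2.symm
    · by_cases hσ : z σ = 0
      · rw [hσ]
        simp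
      · exact Finset.subset_biUnion_of_mem (fun σ => (B.repr (z σ)).support)
          (Finsupp.mem_support_iff.mpr hσ)
    · intro i _
      rw [zero_smul]
  rw [h1]
  apply Submodule.sum_mem
  intro i _
  exact bdr_map _ n _ (rat_van n h _ (cyc_map _ n z hz))

theorem main : S_VR := by
  intro X _ n h
  apply Submodule.Quotient.subsingleton_iff.mpr
  rw [eq_top_iff]
  rintro ⟨z, hz⟩ _
  exact real_van n h z hz

end Pool.Agent.W293.NT.VR
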